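import Mathlib

set_option autoImplicit false

namespace Pool.Agent.H29R2

open Matrix Complex
open scoped ComplexOrder

variable {n : ℕ}

/-- the real quadratic form attached to a complex matrix -/
noncomputable def qf (A : Matrix (Fin n) (Fin n) ℂ) (x : Fin n → ℂ) : ℝ :=
  (star x ⬝ᵥ (A *ᵥ x)).re

lemma qf_smul (A : Matrix (Fin n) (Fin n) ℂ) (x : Fin n → ℂ) (c : ℝ) :
    qf A ((c : ℂ) • x) = c ^ 2 * qf A x := by
  unfold qf
  rw [Matrix.mulVec_smul, star_smul, smul_dotProduct, dotProduct_smul]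
  simp only [smul_eq_mul, RCLike.star_def, Complex.conj_ofReal]
  rw [← mul_assoc, ← Complex.ofReal_mul, Complex.re_ofReal_mul]
  ring

lemma continuous_qf (H : ℝ → Matrix (Fin n) (Fin n) ℂ) (hc : Continuous H) :
    Continuous (fun p : ℝ × (Fin n → ℂ) => qf (H p.1) p.2) := by
  unfold qf
  apply Complex.continuous_re.comp
  have h1 : Continuous (fun p : ℝ × (Fin n → ℂ) => H p.1 *ᵥ p.2) :=
    Continuous.matrix_mulVec (hc.comp continuous_fst) continuous_snd
  exact Continuous.dotProduct (continuous_star.comp continuous_snd) h1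

theorem posdef_path (H : ℝ → Matrix (Fin n) (Fin n) ℂ) (hc : Continuous H)
    (hH : ∀ θ, (H θ).IsHermitian) (b : ℝ) (hb : 0 ≤ b)
    (hnd : ∀ θ, ∀ x, H θ *ᵥ x = 0 → x = 0)
    (h0 : ∀ x, x ≠ 0 → 0 < qf (H 0) x) :
    ∀ x, x ≠ 0 → 0 < qf (H b) x := by
  by_contra hcon
  push Not at hcon
  obtain ⟨x0, hx0, hx0'⟩ := hcon
  set K : Set (Fin n → ℂ) := Metric.sphere 0 1 with hK
  have hKc : IsCompact K := isCompact_sphere 0 1
  have hKne : K.Nonempty := by
    refine ⟨((‖x0‖⁻¹ : ℝ) : ℂ) • x0, ?_⟩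
    rw [hK, mem_sphere_zero_iff_norm, norm_smul]
    simp [norm_ne_zero_iff.mpr hx0]
  set g : ℝ → ℝ := fun θ => sInf ((fun x => qf (H θ) x) '' K) with hg
  have hgc : Continuous g := by
    have := hKc.continuous_sInf (f := fun θ x => qf (H θ) x)
      (by simpa [Function.HasUncurry.uncurry] using continuous_qf H hc)
    exact this
  have hcx : ∀ θ, Continuous (fun x => qf (H θ) x) := by
    intro θ
    exact (continuous_qf H hc).comp (Continuous.prodMk continuous_const continuous_id)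
  have hmem : ∀ θ, g θ ∈ (fun x => qf (H θ) x) '' K := by
    intro θ
    exact (hKc.image (hcx θ)).sInf_mem (hKne.image _)
  have hle : ∀ θ, ∀ x ∈ K, g θ ≤ qf (H θ) x := by
    intro θ x hx
    exact csInf_le (hKc.image (hcx θ)).bddBelow ⟨x, hx, rfl⟩
  have hg0 : 0 < g 0 := by
    obtain ⟨x, hx, hxe⟩ := hmem 0
    rw [← hxe]
    apply h0
    rintro rfl
    simp [hK] at hx
  have hgb : g b ≤ 0 := by
    have h1 : ((‖x0‖⁻¹ : ℝ) : ℂ) • x0 ∈ K := by
      rw [hK, mem_sphere_zero_iff_norm, norm_smul]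
      simp [norm_ne_zero_iff.mpr hx0]
    refine (hle b _ h1).trans ?_
    rw [qf_smul]
    exact mul_nonpos_of_nonneg_of_nonpos (sq_nonneg _) hx0'
  have hivt := intermediate_value_Icc' hb (f := g) hgc.continuousOn
  obtain ⟨θ, -, hθ⟩ := hivt ⟨hgb, hg0.le⟩
  -- the form is positive semidefinite at θ
  have hpsd : (H θ).PosSemidef := by
    refine Matrix.PosSemidef.of_dotProduct_mulVec_nonneg (hH θ) ?_
    intro x
    have him : (star x ⬝ᵥ (H θ *ᵥ x)).im = 0 := (hH θ).im_star_dotProduct_mulVec_self x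
    rw [Complex.le_def]
    refine ⟨?_, by simpa using him.symm⟩
    by_cases hx : x = 0
    · simp [hx]
    · have h1 : ((‖x‖⁻¹ : ℝ) : ℂ) • x ∈ K := by
        rw [hK, mem_sphere_zero_iff_norm, norm_smul]
        simp [norm_ne_zero_iff.mpr hx]
      have h2 := hle θ _ h1
      rw [hθ, qf_smul] at h2
      have h3 : 0 < (‖x‖⁻¹) ^ 2 := by positivity
      have h4 : 0 ≤ qf (H θ) x := by
        by_contra hneg
        push Not at hneg
        have := mul_neg_of_pos_of_neg h3 hneg
        linarith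
      simpa [qf] using h4
  obtain ⟨x, hx, hxe⟩ := hmem θ
  simp only [hθ] at hxe
  have hz : star x ⬝ᵥ (H θ *ᵥ x) = 0 := by
    apply Complex.ext
    · simpa [qf] using hxe
    · simpa using (hH θ).im_star_dotProduct_mulVec_self x
  have hz' : H θ *ᵥ x = 0 := (hpsd.dotProduct_mulVec_zero_iff x).mp hz
  have := hnd θ x hz'
  rw [this] at hx
  simp [hK] at hx

end Pool.Agent.H29R2
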