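import Mathlib
import Pool.Agent.H29R2.PosPath

set_option autoImplicit false

namespace Pool.Agent.H29R2

open Matrix Complex

variable {n : ℕ}

/-- the point `exp (i θ)` of the unit circle -/
noncomputable def tt (θ : ℝ) : ℂ := Complex.exp (θ * Complex.I)

/-- the square root `exp (i θ / 2)` -/
noncomputable def qq (θ : ℝ) : ℂ := Complex.exp (((θ / 2 : ℝ) : ℂ) * Complex.I)

lemma tt_ne (θ : ℝ) : tt θ ≠ 0 := Complex.exp_ne_zero _
lemma qq_ne (θ : ℝ) : qq θ ≠ 0 := Complex.exp_ne_zero _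

lemma qq_sq (θ : ℝ) : qq θ * qq θ = tt θ := by
  unfold qq tt
  rw [← Complex.exp_add]
  congr 1
  push_cast
  ring

lemma star_exp_I (x : ℝ) : star (Complex.exp (x * Complex.I)) = (Complex.exp (x * Complex.I))⁻¹ := by
  rw [RCLike.star_def, ← Complex.exp_conj, ← Complex.exp_neg]
  congr 1
  simp

lemma star_tt (θ : ℝ) : star (tt θ) = (tt θ)⁻¹ := star_exp_I θ
lemma star_qq (θ : ℝ) : star (qq θ) = (qq θ)⁻¹ := star_exp_I _

lemma continuous_tt : Continuous tt := by unfold tt; fun_prop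
lemma continuous_qq : Continuous qq := by unfold qq; fun_prop

/-- evaluation of Laurent polynomials at `exp (i θ)` -/
noncomputable def ev (θ : ℝ) : LaurentPolynomial ℤ →+* ℂ :=
  LaurentPolynomial.eval₂ (Int.castRingHom ℂ) (Units.mk0 (tt θ) (tt_ne θ))

lemma ev_T (θ : ℝ) (k : ℤ) : ev θ (LaurentPolynomial.T k) = tt θ ^ k := by
  unfold ev
  rw [LaurentPolynomial.eval₂_T]
  simp

/-- the Seifert-type invariant sesquilinear form -/
noncomputable def Om (n : ℕ) (θ : ℝ) : Matrix (Fin n) (Fin n) ℂ :=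
  Matrix.of fun a b => if a < b then (1 - (tt θ)⁻¹) * (tt θ ^ ((b : ℤ) - (a : ℤ)))
    else if a = b then 1 else 0

noncomputable def wv (n : ℕ) (θ : ℝ) : Fin n → ℂ := fun a => tt θ ^ (a : ℤ)

lemma Om_conj (θ : ℝ) :
    (Om n θ)ᴴ = tt θ • Om n θ + (1 - tt θ) • Matrix.vecMulVec (star (wv n θ)) (wv n θ) := by
  ext a b
  have ht := tt_ne θ
  simp only [Matrix.conjTranspose_apply, Om, Matrix.of_apply, Matrix.add_apply, Matrix.smul_apply,
    Matrix.vecMulVec_apply, Pi.star_apply, wv, smul_eq_mul, star_zpow₀, star_tt]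
  rcases lt_trichotomy a b with h | h | h
  · rw [if_neg (not_lt.mpr h.le), if_neg h.ne', if_pos h, star_zero]
    rw [_root_.inv_zpow, zpow_sub₀ ht]
    field_simp
    ring
  · subst h
    simp only [lt_irrefl, if_false, if_true, star_one]
    rw [_root_.inv_zpow]
    field_simp
    ring
  · rw [if_pos h, if_neg (not_lt.mpr h.le), if_neg h.ne']
    rw [star_mul', star_sub, star_one, star_inv₀, star_zpow₀, star_tt, inv_inv, _root_.inv_zpow,
      _root_.inv_zpow, zpow_sub₀ ht]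
    field_simp
    ring

/-- the two vectors of the transvection-like generators -/
noncomputable def uv (θ : ℝ) (i0 i1 : Fin n) : Fin n → ℂ := Pi.single i0 (-(tt θ)) + Pi.single i1 1
noncomputable def rv (i0 i1 : Fin n) : Fin n → ℂ := Pi.single i0 1 - Pi.single i1 1

lemma Om_uv (θ : ℝ) (i0 i1 : Fin n) (h : (i1 : ℕ) = i0 + 1) :
    Om n θ *ᵥ uv θ i0 i1 = - rv i0 i1 := by
  have ht := tt_ne θ
  ext a
  unfold uv rv
  rw [Matrix.mulVec_add]
  simp only [Matrix.mulVec_single, Pi.add_apply, Pi.smul_apply, Matrix.col_apply, Om,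
    Matrix.of_apply, MulOpposite.smul_eq_mul_unop, MulOpposite.unop_op, Pi.neg_apply, Pi.sub_apply,
    Pi.single_apply]
  have e1 : (a < i1 ↔ (a : ℕ) ≤ i0) := by rw [Fin.lt_def, h]; omega
  have e2 : (a = i1 ↔ (a : ℕ) = i0 + 1) := by rw [Fin.ext_iff, h]
  have e3 : (a < i0 ↔ (a : ℕ) < i0) := by rw [Fin.lt_def]
  have e4 : (a = i0 ↔ (a : ℕ) = i0) := by rw [Fin.ext_iff]
  simp only [e1, e2, e3, e4, h]
  rcases lt_trichotomy (a : ℕ) (i0 : ℕ) with h1 | h1 | h1
  · rw [if_pos h1, if_pos h1.le, if_neg h1.ne, if_neg (by omega)]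
    push_cast
    rw [show ((i0 : ℕ) : ℤ) + 1 - ((a : ℕ) : ℤ) = (((i0 : ℕ) : ℤ) - ((a : ℕ) : ℤ)) + 1 by ring,
      zpow_add₀ ht, zpow_one]
    ring
  · rw [if_neg (by omega), if_pos h1, if_pos (by omega), if_neg (by omega)]
    push_cast
    rw [h1]
    rw [show ((i0 : ℕ) : ℤ) + 1 - ((i0 : ℕ) : ℤ) = 1 by ring, zpow_one]
    field_simp
    ring
  · rw [if_neg (by omega), if_neg (by omega), if_neg (by omega)]
    by_cases h2 : (a : ℕ) = i0 + 1
    · rw [if_pos h2]
      simp
    · rw [if_neg h2]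
      simp

lemma wv_uv (θ : ℝ) (i0 i1 : Fin n) (h : (i1 : ℕ) = i0 + 1) :
    wv n θ ⬝ᵥ uv θ i0 i1 = 0 := by
  have ht := tt_ne θ
  unfold uv wv
  rw [dotProduct_add, dotProduct_single, dotProduct_single, h]
  push_cast
  rw [zpow_add₀ ht, zpow_one]
  ring

lemma OmH_uv (θ : ℝ) (i0 i1 : Fin n) (h : (i1 : ℕ) = i0 + 1) :
    (Om n θ)ᴴ *ᵥ uv θ i0 i1 = - (tt θ • rv i0 i1) := by
  rw [Om_conj, Matrix.add_mulVec, Matrix.smul_mulVec, Matrix.smul_mulVec, Om_uv θ i0 i1 h,
    Matrix.vecMulVec_mulVec, wv_uv θ i0 i1 h]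
  simp

lemma star_rv (i0 i1 : Fin n) : star (rv i0 i1) = rv i0 i1 := by
  ext a
  simp only [rv, Pi.star_apply, Pi.sub_apply, Pi.single_apply, star_sub]
  split_ifs <;> simp

noncomputable def Gen (θ : ℝ) (i0 i1 : Fin n) : Matrix (Fin n) (Fin n) ℂ :=
  1 + Matrix.vecMulVec (uv θ i0 i1) (rv i0 i1)

lemma Gen_inv (θ : ℝ) (i0 i1 : Fin n) (h : (i1 : ℕ) = i0 + 1) :
    (Gen θ i0 i1)ᴴ * Om n θ * Gen θ i0 i1 = Om n θ := by
  have ht := tt_ne θ
  have hne : i0 ≠ i1 := by
    intro hh; rw [hh] at h; omega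
  have h1 := Om_uv θ i0 i1 h
  have h2 : star (uv θ i0 i1) ᵥ* Om n θ = - ((tt θ)⁻¹ • rv i0 i1) := by
    have := congrArg star (OmH_uv θ i0 i1 h)
    rw [Matrix.star_mulVec, Matrix.conjTranspose_conjTranspose] at this
    rw [this, star_neg, star_smul, star_rv, star_tt]
  have h3 : star (uv θ i0 i1) ⬝ᵥ rv i0 i1 = -((tt θ)⁻¹ + 1) := by
    unfold uv rv
    rw [dotProduct_sub, dotProduct_single, dotProduct_single]
    simp only [Pi.star_apply, Pi.add_apply, Pi.single_apply, if_neg hne, if_neg hne.symm, if_true,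
      star_add, star_neg, star_tt, star_zero, star_one]
    ring
  unfold Gen
  rw [Matrix.conjTranspose_add, Matrix.conjTranspose_one, Matrix.conjTranspose_vecMulVec, star_rv]
  rw [Matrix.add_mul, Matrix.one_mul, Matrix.mul_add, Matrix.mul_one, Matrix.add_mul,
    Matrix.mul_vecMulVec, h1, Matrix.vecMulVec_mul, h2, Matrix.vecMulVec_mul_vecMulVec]
  have h4 : (-((tt θ)⁻¹ • rv i0 i1)) ⬝ᵥ uv θ i0 i1 = (tt θ)⁻¹ + 1 := by
    unfold uv rv
    rw [dotProduct_add, dotProduct_single, dotProduct_single]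
    simp only [Pi.neg_apply, Pi.smul_apply, Pi.sub_apply, Pi.single_apply, if_neg hne,
      if_neg hne.symm, if_true, smul_eq_mul]
    field_simp
    ring
  rw [h4]
  ext a b
  simp only [Matrix.add_apply, Matrix.vecMulVec_apply, Pi.neg_apply, Pi.smul_apply, smul_eq_mul]
  ring

lemma wv_Gen (θ : ℝ) (i0 i1 : Fin n) (h : (i1 : ℕ) = i0 + 1) :
    wv n θ ᵥ* Gen θ i0 i1 = wv n θ := by
  unfold Gen
  rw [Matrix.vecMul_add, Matrix.vecMul_one, Matrix.vecMul_vecMulVec, wv_uv θ i0 i1 h]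
  simp

/-- the inverse generator -/
noncomputable def GenInv (θ : ℝ) (i0 i1 : Fin n) : Matrix (Fin n) (Fin n) ℂ :=
  1 + (tt θ)⁻¹ • Matrix.vecMulVec (uv θ i0 i1) (rv i0 i1)

lemma Gen_mul_GenInv (θ : ℝ) (i0 i1 : Fin n) (h : (i1 : ℕ) = i0 + 1) :
    Gen θ i0 i1 * GenInv θ i0 i1 = 1 := by
  have ht := tt_ne θ
  have hne : i0 ≠ i1 := by
    intro hh; rw [hh] at h; omega
  have h4 : rv i0 i1 ⬝ᵥ uv θ i0 i1 = -tt θ - 1 := by
    unfold uv rv
    rw [dotProduct_add, dotProduct_single, dotProduct_single]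
    simp only [Pi.sub_apply, Pi.single_apply, if_neg hne, if_neg hne.symm, if_true]
    ring
  unfold Gen GenInv
  rw [Matrix.add_mul, Matrix.one_mul, Matrix.mul_add, Matrix.mul_one, Matrix.mul_smul,
    Matrix.vecMulVec_mul_vecMulVec, h4]
  ext a b
  simp only [Matrix.add_apply, Matrix.vecMulVec_apply, Pi.smul_apply, smul_eq_mul,
    Matrix.smul_apply]
  field_simp
  ring

/-- the three facts carried along the submonoid generated by the Burau matrices -/
structure Good (n : ℕ) (M : Matrix (Fin n) (Fin n) (LaurentPolynomial ℤ)) : Prop where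
  cont : Continuous (fun θ : ℝ => M.map (ev θ))
  inv : ∀ θ : ℝ, (M.map (ev θ))ᴴ * Om n θ * M.map (ev θ) = Om n θ
  fix : ∀ θ : ℝ, wv n θ ᵥ* M.map (ev θ) = wv n θ

lemma Good.one : Good n 1 := by
  have h : ∀ θ : ℝ, (1 : Matrix (Fin n) (Fin n) (LaurentPolynomial ℤ)).map (ev θ) = 1 := by
    intro θ
    exact Matrix.map_one _ (map_zero _) (map_one _)
  constructor
  · simp only [h]; exact continuous_const
  · intro θ; rw [h]; simp
  · intro θ; rw [h]; simp

lemma Good.mul {M N : Matrix (Fin n) (Fin n) (LaurentPolynomial ℤ)} (hM : Good n M) (hN : Good n N) :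
    Good n (M * N) := by
  have h : ∀ θ : ℝ, (M * N).map (ev θ) = M.map (ev θ) * N.map (ev θ) := by
    intro θ
    exact Matrix.map_mul
  constructor
  · simp only [h]; exact hM.cont.matrix_mul hN.cont
  · intro θ
    rw [h, Matrix.conjTranspose_mul]
    calc (N.map (ev θ))ᴴ * (M.map (ev θ))ᴴ * Om n θ * (M.map (ev θ) * N.map (ev θ))
        = (N.map (ev θ))ᴴ * ((M.map (ev θ))ᴴ * Om n θ * M.map (ev θ)) * N.map (ev θ) := by
          simp only [Matrix.mul_assoc]
      _ = _ := by rw [hM.inv, hN.inv]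
  · intro θ
    rw [h, ← Matrix.vecMul_vecMul, hM.fix, hN.fix]

lemma Good.inv_of {M N : Matrix (Fin n) (Fin n) (LaurentPolynomial ℤ)} (hM : Good n M)
    (h : ∀ θ : ℝ, M.map (ev θ) * N.map (ev θ) = 1)
    (hc : Continuous (fun θ : ℝ => N.map (ev θ))) : Good n N := by
  refine ⟨hc, ?_, ?_⟩
  · intro θ
    have h2 : (N.map (ev θ))ᴴ * (M.map (ev θ))ᴴ = 1 := by
      rw [← Matrix.conjTranspose_mul, h, Matrix.conjTranspose_one]
    calc (N.map (ev θ))ᴴ * Om n θ * N.map (ev θ)
        = (N.map (ev θ))ᴴ * ((M.map (ev θ))ᴴ * Om n θ * M.map (ev θ)) * N.map (ev θ) := by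
          rw [hM.inv]
      _ = ((N.map (ev θ))ᴴ * (M.map (ev θ))ᴴ) * Om n θ * (M.map (ev θ) * N.map (ev θ)) := by
          simp only [Matrix.mul_assoc]
      _ = _ := by rw [h, h2]; simp
  · intro θ
    calc wv n θ ᵥ* N.map (ev θ) = (wv n θ ᵥ* M.map (ev θ)) ᵥ* N.map (ev θ) := by rw [hM.fix]
      _ = wv n θ ᵥ* (M.map (ev θ) * N.map (ev θ)) := by rw [Matrix.vecMul_vecMul]
      _ = _ := by rw [h]; simp

lemma continuous_Gen (i0 i1 : Fin n) : Continuous (fun θ : ℝ => Gen θ i0 i1) := by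
  have h := continuous_tt
  refine continuous_matrix ?_
  intro a b
  simp only [Gen, Matrix.add_apply, Matrix.vecMulVec_apply, uv, Pi.add_apply, Pi.single_apply]
  split_ifs <;> fun_prop

lemma Good.of_Gen {M : Matrix (Fin n) (Fin n) (LaurentPolynomial ℤ)} (i0 i1 : Fin n)
    (h : (i1 : ℕ) = i0 + 1) (hM : ∀ θ : ℝ, M.map (ev θ) = Gen θ i0 i1) : Good n M := by
  constructor
  · simp only [hM]; exact continuous_Gen i0 i1
  · intro θ; rw [hM]; exact Gen_inv θ i0 i1 h
  · intro θ; rw [hM]; exact wv_Gen θ i0 i1 h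

lemma continuous_ev (p : LaurentPolynomial ℤ) : Continuous (fun θ : ℝ => ev θ p) := by
  induction p using LaurentPolynomial.induction_on' with
  | add p q hp hq =>
    simp only [map_add]
    exact hp.add hq
  | C_mul_T k c =>
    have h : ∀ θ : ℝ, ev θ (LaurentPolynomial.C c * LaurentPolynomial.T k) = (c : ℂ) * tt θ ^ k := by
      intro θ
      rw [map_mul, ev_T]
      congr 1
      unfold ev
      rw [LaurentPolynomial.eval₂_C]
      simp
    simp only [h]
    apply Continuous.mul continuous_const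
    exact continuous_tt.zpow₀ k (fun θ => Or.inl (tt_ne θ))

lemma continuous_map_ev (M : Matrix (Fin n) (Fin n) (LaurentPolynomial ℤ)) :
    Continuous (fun θ : ℝ => M.map (ev θ)) := by
  refine continuous_matrix ?_
  intro a b
  simpa using continuous_ev (M a b)

/-- Main analytic argument: a finite order element preserving the data is trivial at `t = 1`. -/
theorem Good.eq_one_at {M : Matrix (Fin n) (Fin n) (LaurentPolynomial ℤ)} (hM : Good n M)
    (k : ℕ) (hk : 0 < k) (hMk : M ^ k = 1) : M.map (ev 0) = 1 := by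
  classical
  have hpow : ∀ (θ : ℝ) (j : ℕ), (M ^ j).map (ev θ) = (M.map (ev θ)) ^ j := by
    intro θ j
    exact Matrix.map_pow M (ev θ) j
  set A : ℝ → Matrix (Fin n) (Fin n) ℂ := fun θ => M.map (ev θ) with hA
  have hAk : ∀ θ, A θ ^ k = 1 := by
    intro θ
    rw [hA]
    simp only
    rw [← hpow, hMk]
    exact Matrix.map_one _ (map_zero _) (map_one _)
  have hk0 : (k : ℂ) ≠ 0 := by exact_mod_cast hk.ne'
  -- the averaging projector
  set P : ℝ → Matrix (Fin n) (Fin n) ℂ := fun θ => (k : ℂ)⁻¹ • ∑ j ∈ Finset.range k, A θ ^ j with hP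
  have hPc : Continuous P := by
    have h1 : Continuous (fun θ : ℝ => ∑ j ∈ Finset.range k, A θ ^ j) := by
      apply continuous_finsetSum
      intro j _
      have h2 : (fun θ : ℝ => A θ ^ j) = fun θ : ℝ => (M ^ j).map (ev θ) := by
        funext θ
        exact (hpow θ j).symm
      rw [h2]
      exact continuous_map_ev (M ^ j)
    have h3 : P = (k : ℂ)⁻¹ • (fun θ : ℝ => ∑ j ∈ Finset.range k, A θ ^ j) := rfl
    rw [h3]
    exact h1.const_smul _
  have hAP : ∀ θ, A θ * P θ = P θ := by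
    intro θ
    simp only [hP]
    rw [Matrix.mul_smul, Finset.mul_sum]
    congr 1
    have h1 : ∀ j ∈ Finset.range k, A θ * A θ ^ j = A θ ^ (j + 1) := fun j _ => (pow_succ' _ _).symm
    rw [Finset.sum_congr rfl h1]
    have h2 := Finset.sum_range_succ (fun j => A θ ^ j) k
    have h3 := Finset.sum_range_succ' (fun j => A θ ^ j) k
    rw [h2, hAk, pow_zero] at h3
    exact (add_right_cancel h3).symm
  have hPA : ∀ θ, P θ * A θ = P θ := by
    intro θ
    simp only [hP]
    rw [Matrix.smul_mul, Finset.sum_mul]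
    congr 1
    have h1 : ∀ j ∈ Finset.range k, A θ ^ j * A θ = A θ ^ (j + 1) := fun j _ => (pow_succ _ _).symm
    rw [Finset.sum_congr rfl h1]
    have h2 := Finset.sum_range_succ (fun j => A θ ^ j) k
    have h3 := Finset.sum_range_succ' (fun j => A θ ^ j) k
    rw [h2, hAk, pow_zero] at h3
    exact (add_right_cancel h3).symm
  -- general averaging facts
  have avgL : ∀ θ (X : Matrix (Fin n) (Fin n) ℂ), A θ * X = X → P θ * X = X := by
    intro θ X hX
    have h1 : ∀ j : ℕ, A θ ^ j * X = X := by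
      intro j
      induction j with
      | zero => simp
      | succ j ih => rw [pow_succ, Matrix.mul_assoc, hX, ih]
    simp only [hP]
    rw [Matrix.smul_mul, Finset.sum_mul, Finset.sum_congr rfl (fun j _ => h1 j)]
    rw [Finset.sum_const, Finset.card_range, ← Nat.cast_smul_eq_nsmul ℂ, smul_smul,
      inv_mul_cancel₀ hk0, one_smul]
  have avgR : ∀ θ (X : Matrix (Fin n) (Fin n) ℂ), X * A θ = X → X * P θ = X := by
    intro θ X hX
    have h1 : ∀ j : ℕ, X * A θ ^ j = X := by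
      intro j
      induction j with
      | zero => simp
      | succ j ih => rw [pow_succ', ← Matrix.mul_assoc, hX, ih]
    simp only [hP]
    rw [Matrix.mul_smul, Finset.mul_sum, Finset.sum_congr rfl (fun j _ => h1 j)]
    rw [Finset.sum_const, Finset.card_range, ← Nat.cast_smul_eq_nsmul ℂ, smul_smul,
      inv_mul_cancel₀ hk0, one_smul]
  have hPP : ∀ θ, P θ * P θ = P θ := fun θ => avgL θ _ (hAP θ)
  have hPHA : ∀ θ, (P θ)ᴴ * (A θ)ᴴ = (P θ)ᴴ := by
    intro θ
    rw [← Matrix.conjTranspose_mul, hAP]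
  have hinv : ∀ θ, (A θ)ᴴ * Om n θ * A θ = Om n θ := hM.inv
  have hPO1 : ∀ θ, (P θ)ᴴ * Om n θ * P θ = (P θ)ᴴ * Om n θ := by
    intro θ
    apply avgR
    calc (P θ)ᴴ * Om n θ * A θ = ((P θ)ᴴ * (A θ)ᴴ) * Om n θ * A θ := by rw [hPHA]
      _ = (P θ)ᴴ * ((A θ)ᴴ * Om n θ * A θ) := by simp only [Matrix.mul_assoc]
      _ = _ := by rw [hinv]
  have hPO2 : ∀ θ, (P θ)ᴴ * Om n θ * P θ = Om n θ * P θ := by
    intro θ
    have h1 : (A θ)ᴴ * (Om n θ * P θ) = Om n θ * P θ := by
      calc (A θ)ᴴ * (Om n θ * P θ) = (A θ)ᴴ * (Om n θ * (A θ * P θ)) := by rw [hAP]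
        _ = ((A θ)ᴴ * Om n θ * A θ) * P θ := by simp only [Matrix.mul_assoc]
        _ = _ := by rw [hinv]
    have h2 : (Om n θ * P θ)ᴴ * A θ = (Om n θ * P θ)ᴴ := by
      have := congrArg Matrix.conjTranspose h1
      rwa [Matrix.conjTranspose_mul, Matrix.conjTranspose_conjTranspose] at this
    have h3 := avgR θ _ h2
    have h4 := congrArg Matrix.conjTranspose h3
    rw [Matrix.conjTranspose_mul, Matrix.conjTranspose_conjTranspose] at h4
    rw [Matrix.mul_assoc, h4]
  have hPO : ∀ θ, (P θ)ᴴ * Om n θ = Om n θ * P θ := fun θ => (hPO1 θ).symm.trans (hPO2 θ)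
  -- complementary projector
  set N : ℝ → Matrix (Fin n) (Fin n) ℂ := fun θ => 1 - P θ with hN
  have hNc : Continuous N := continuous_const.sub hPc
  have hNN : ∀ θ, N θ * N θ = N θ := by
    intro θ
    simp only [hN]
    rw [Matrix.sub_mul, Matrix.mul_sub, Matrix.mul_sub, hPP]
    simp
  have hPN : ∀ θ, P θ * N θ = 0 := by
    intro θ
    simp only [hN]
    rw [Matrix.mul_sub, hPP]
    simp
  have hNO : ∀ θ, (N θ)ᴴ * Om n θ = Om n θ * N θ := by
    intro θ
    simp only [hN]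
    rw [Matrix.conjTranspose_sub, Matrix.sub_mul, Matrix.mul_sub, hPO, Matrix.conjTranspose_one]
    simp
  have hwN : ∀ θ, wv n θ ᵥ* N θ = 0 := by
    intro θ
    have h1 : ∀ j : ℕ, wv n θ ᵥ* (A θ ^ j) = wv n θ := by
      intro j
      induction j with
      | zero => simp
      | succ j ih => rw [pow_succ, ← Matrix.vecMul_vecMul, ih]; exact hM.fix θ
    have h2 : wv n θ ᵥ* P θ = wv n θ := by
      simp only [hP]
      rw [Matrix.vecMul_smul, Matrix.vecMul_sum, Finset.sum_congr rfl (fun j _ => h1 j)]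
      rw [Finset.sum_const, Finset.card_range, ← Nat.cast_smul_eq_nsmul ℂ, smul_smul,
        inv_mul_cancel₀ hk0, one_smul]
    simp only [hN]
    rw [Matrix.vecMul_sub, h2, Matrix.vecMul_one, sub_self]
  have hOHN : ∀ θ, (Om n θ)ᴴ * N θ = tt θ • (Om n θ * N θ) := by
    intro θ
    rw [Om_conj, Matrix.add_mul, Matrix.smul_mul, Matrix.smul_mul, Matrix.vecMulVec_mul, hwN]
    simp
  -- the Hermitian family
  set H : ℝ → Matrix (Fin n) (Fin n) ℂ := fun θ => qq θ • (Om n θ * N θ) + (P θ)ᴴ * P θ with hH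
  have hOc : Continuous (fun θ : ℝ => Om n θ) := by
    refine continuous_matrix ?_
    intro a b
    simp only [Om, Matrix.of_apply]
    have h := continuous_tt
    split_ifs
    · apply Continuous.mul
      · exact continuous_const.sub (h.inv₀ tt_ne)
      · exact h.zpow₀ _ (fun θ => Or.inl (tt_ne θ))
    · exact continuous_const
    · exact continuous_const
  have hHc : Continuous H := by
    rw [hH]
    apply Continuous.add
    · exact continuous_qq.smul (hOc.matrix_mul hNc)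
    · exact hPc.matrix_conjTranspose.matrix_mul hPc
  have hHh : ∀ θ, (H θ).IsHermitian := by
    intro θ
    have hq : star (qq θ) * tt θ = qq θ := by
      rw [star_qq, ← qq_sq]
      field_simp [qq_ne θ]
    simp only [hH]
    unfold Matrix.IsHermitian
    rw [Matrix.conjTranspose_add, Matrix.conjTranspose_smul, Matrix.conjTranspose_mul,
      Matrix.conjTranspose_mul, Matrix.conjTranspose_conjTranspose]
    congr 1
    have h1 : (N θ)ᴴ * (Om n θ)ᴴ = (Om n θ)ᴴ * N θ := by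
      have := congrArg Matrix.conjTranspose (hNO θ)
      rw [Matrix.conjTranspose_mul, Matrix.conjTranspose_mul, Matrix.conjTranspose_conjTranspose]
        at this
      exact this.symm
    rw [h1, hOHN, smul_smul, hq]
  have sq_nonneg' : ∀ y : Fin n → ℂ, 0 ≤ (star y ⬝ᵥ y).re ∧ ((star y ⬝ᵥ y).re = 0 → y = 0) := by
    intro y
    have h1 : (star y ⬝ᵥ y).re = ∑ i, Complex.normSq (y i) := by
      simp only [dotProduct, Pi.star_apply, Complex.re_sum]
      apply Finset.sum_congr rfl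
      intro i _
      rw [RCLike.star_def, ← Complex.normSq_eq_conj_mul_self]
      simp
    rw [h1]
    refine ⟨Finset.sum_nonneg (fun i _ => Complex.normSq_nonneg _), ?_⟩
    intro h2
    ext i
    have := (Finset.sum_eq_zero_iff_of_nonneg (fun i _ => Complex.normSq_nonneg (y i))).mp h2 i
      (Finset.mem_univ i)
    simpa using this
  have hOinj : ∀ θ, ∀ x : Fin n → ℂ, Om n θ *ᵥ x = 0 → x = 0 := by
    intro θ x hx
    have hdet : (Om n θ).det = 1 := by
      rw [Matrix.det_of_isUpperTriangular]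
      · simp [Om]
      · intro a b hab
        simp only [id] at hab
        simp only [Om, Matrix.of_apply]
        rw [if_neg (not_lt.mpr hab.le), if_neg hab.ne']
    by_contra hne
    have := (Matrix.exists_mulVec_eq_zero_iff (M := Om n θ)).mp ⟨x, hne, hx⟩
    rw [hdet] at this
    exact one_ne_zero this
  have hnd : ∀ θ, ∀ x, H θ *ᵥ x = 0 → x = 0 := by
    intro θ x hx
    have h1 : (N θ)ᴴ * H θ = qq θ • (Om n θ * N θ) := by
      simp only [hH]
      rw [Matrix.mul_add, Matrix.mul_smul, ← Matrix.mul_assoc, hNO, Matrix.mul_assoc, hNN,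
        ← Matrix.mul_assoc, ← Matrix.conjTranspose_mul, hPN]
      simp
    have h2 : Om n θ *ᵥ (N θ *ᵥ x) = 0 := by
      have h3 : ((N θ)ᴴ * H θ) *ᵥ x = 0 := by
        rw [← Matrix.mulVec_mulVec, hx, Matrix.mulVec_zero]
      rw [h1, Matrix.smul_mulVec, ← Matrix.mulVec_mulVec] at h3
      exact (smul_eq_zero.mp h3).resolve_left (qq_ne θ)
    have h4 : N θ *ᵥ x = 0 := hOinj θ _ h2
    have h5 : (P θ)ᴴ *ᵥ (P θ *ᵥ x) = 0 := by
      have h6 := hx
      simp only [hH] at h6
      rw [Matrix.add_mulVec, Matrix.smul_mulVec, ← Matrix.mulVec_mulVec, h4, Matrix.mulVec_zero,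
        smul_zero, zero_add, ← Matrix.mulVec_mulVec] at h6
      exact h6
    have h7 : P θ *ᵥ x = 0 := by
      have h8 : star (P θ *ᵥ x) ⬝ᵥ (P θ *ᵥ x) = 0 := by
        rw [Matrix.star_mulVec, ← Matrix.dotProduct_mulVec, h5, dotProduct_zero]
      exact (sq_nonneg' _).2 (by rw [h8, Complex.zero_re])
    have h9 : x = N θ *ᵥ x + P θ *ᵥ x := by
      rw [← Matrix.add_mulVec]
      simp [hN]
    rw [h9, h4, h7, add_zero]
  have hO0 : ∀ θ, tt θ = 1 → Om n θ = 1 := by
    intro θ hθ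
    ext a b
    simp only [Om, Matrix.of_apply, hθ, Matrix.one_apply]
    split_ifs with h1 h2
    · exact absurd h2 h1.ne
    · simp
    · rfl
    · rfl
  have ht0 : tt 0 = 1 := by simp [tt]
  have hq0 : qq 0 = 1 := by simp [qq]
  have ht1 : tt (2 * Real.pi) = 1 := by
    unfold tt
    push_cast
    exact Complex.exp_two_pi_mul_I
  have hq1 : qq (2 * Real.pi) = -1 := by
    unfold qq
    rw [show (2 * Real.pi / 2 : ℝ) = Real.pi by ring]
    exact Complex.exp_pi_mul_I
  have hA1 : A (2 * Real.pi) = A 0 := by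
    simp only [hA]
    congr 1
    have : ev (2 * Real.pi) = ev 0 := by
      unfold ev
      congr 1
      ext
      simp [ht0, ht1]
    rw [this]
  have hP1 : P (2 * Real.pi) = P 0 := by simp only [hP, hA1]
  have hN1 : N (2 * Real.pi) = N 0 := by simp only [hN, hP1]
  have hNH0 : (N 0)ᴴ = N 0 := by
    have := hNO 0
    rwa [hO0 0 ht0, Matrix.mul_one, Matrix.one_mul] at this
  have hPH0 : (P 0)ᴴ = P 0 := by
    have := hPO 0
    rwa [hO0 0 ht0, Matrix.mul_one, Matrix.one_mul] at this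
  have hdecomp : ∀ x, x = N 0 *ᵥ x + P 0 *ᵥ x := by
    intro x
    rw [← Matrix.add_mulVec]
    simp [hN]
  have hsqN : ∀ x, star x ⬝ᵥ (N 0 *ᵥ x) = star (N 0 *ᵥ x) ⬝ᵥ (N 0 *ᵥ x) := by
    intro x
    rw [Matrix.star_mulVec, ← Matrix.dotProduct_mulVec, hNH0, Matrix.mulVec_mulVec, hNN]
  have hsqP : ∀ x, star x ⬝ᵥ (P 0 *ᵥ x) = star (P 0 *ᵥ x) ⬝ᵥ (P 0 *ᵥ x) := by
    intro x
    rw [Matrix.star_mulVec, ← Matrix.dotProduct_mulVec, hPH0, Matrix.mulVec_mulVec, hPP]
  have h0 : ∀ x, x ≠ 0 → 0 < qf (H 0) x := by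
    intro x hx
    unfold qf
    simp only [hH]
    rw [hq0, one_smul, hO0 0 ht0, Matrix.one_mul, hPH0, hPP, Matrix.add_mulVec, dotProduct_add,
      hsqN, hsqP, Complex.add_re]
    rcases (sq_nonneg' (N 0 *ᵥ x)).1.lt_or_eq with h1 | h1
    · linarith [(sq_nonneg' (P 0 *ᵥ x)).1]
    · rcases (sq_nonneg' (P 0 *ᵥ x)).1.lt_or_eq with h2 | h2
      · linarith
      · exfalso
        apply hx
        rw [hdecomp x, (sq_nonneg' (N 0 *ᵥ x)).2 h1.symm, (sq_nonneg' (P 0 *ᵥ x)).2 h2.symm,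
          add_zero]
  have hend := posdef_path H hHc hHh (2 * Real.pi) (by positivity) hnd h0
  -- hence `N 0 = 0`
  have hN0 : ∀ x, N 0 *ᵥ x = 0 := by
    intro x
    by_contra hne
    have h1 := hend _ hne
    unfold qf at h1
    simp only [hH] at h1
    rw [hq1, hO0 _ ht1, Matrix.one_mul, hP1, hN1, hPH0, hPP, Matrix.add_mulVec, Matrix.smul_mulVec,
      Matrix.mulVec_mulVec, Matrix.mulVec_mulVec, hNN, hPN, Matrix.zero_mulVec, add_zero,
      neg_one_smul, dotProduct_neg, Complex.neg_re] at h1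
    linarith [(sq_nonneg' (N 0 *ᵥ x)).1]
  have hN0' : N 0 = 0 := by
    ext a b
    have := congrFun (hN0 (Pi.single b 1)) a
    simpa using this
  have hP0 : P 0 = 1 := by
    have : (1 : Matrix (Fin n) (Fin n) ℂ) - P 0 = 0 := hN0'
    exact (sub_eq_zero.mp this).symm
  have := hAP 0
  rw [hP0, Matrix.mul_one] at this
  exact this

/-- Finite order elements satisfying `Good` are trivial. -/
theorem Good.eq_one {M : Matrix (Fin n) (Fin n) (LaurentPolynomial ℤ)} (hM : Good n M)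
    (k : ℕ) (hk : 0 < k) (hMk : M ^ k = 1) : M = 1 := by
  have h1 := hM.eq_one_at k hk hMk
  set S : Matrix (Fin n) (Fin n) (LaurentPolynomial ℤ) := ∑ j ∈ Finset.range k, M ^ j with hS
  have h2 : (M - 1) * S = 0 := by
    rw [hS, mul_geom_sum, hMk, sub_self]
  have h3 : S.map (ev 0) = (k : ℂ) • (1 : Matrix (Fin n) (Fin n) ℂ) := by
    have h4 : S.map (ev 0) = ∑ j ∈ Finset.range k, (M.map (ev 0)) ^ j := by
      have h5 : S.map (ev 0) = (ev 0).mapMatrix S := rfl
      rw [h5, hS, map_sum]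
      apply Finset.sum_congr rfl
      intro j _
      rw [map_pow]
      rfl
    rw [h4, h1]
    simp [Nat.cast_smul_eq_nsmul]
  have h4 : S.det ≠ 0 := by
    intro h5
    have h6 : (S.map (ev 0)).det = 0 := by
      have h7 : (ev 0) S.det = ((ev 0).mapMatrix S).det := RingHom.map_det _ _
      rw [h5, map_zero] at h7
      exact h7.symm
    rw [h3, Matrix.det_smul, Matrix.det_one, mul_one] at h6
    exact (pow_ne_zero _ (by exact_mod_cast hk.ne')) h6
  have h5 : (M - 1) * S * S.adjugate = 0 := by rw [h2, Matrix.zero_mul]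
  rw [Matrix.mul_assoc, Matrix.mul_adjugate, Matrix.mul_smul, Matrix.mul_one] at h5
  have h6 : M - 1 = 0 := (smul_eq_zero.mp h5).resolve_left h4
  exact sub_eq_zero.mp h6

end Pool.Agent.H29R2
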